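import Pool.Agent.NPC.Dec
import Pool.Agent.H118R3.BC.Code

/-!
# DOMINATING SET on balanced chordal graphs is solvable in polynomial time

* For a balanced chordal graph, the closed neighbourhoods form a balanced matrix: in a chordal
  graph, a strong odd cycle of the closed neighbourhoods with vertices `x i`, `e i` has either all
  the consecutive `x i` or all the consecutive `e i` adjacent, and then the maximal cliques
  containing the triangles form a strong odd cycle of the clique hypergraph.
* A multiset of vertices that meets every closed neighbourhood more than `T / (k + 1)` times, where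
  `T` is its size, splits by Berge's theorem into more than `T / (k + 1)` dominating sets, one of
  which has at most `k` vertices.
* Such a multiset is found by a potential function argument: in each of polynomially many rounds,
  choose the vertex of maximum weight, where the weight of a closed neighbourhood which has been
  met `c` times in `t` rounds is `t - k c`.
-/

namespace Pool.Agent.Results.MP_1e64e3_lc.PolyTime

open Pool.Agent.NPC Pool.Agent.NPC.R671 Pool.Agent.NPC.H118R3.BC

/-- **DOMINATING SET restricted to balanced chordal graphs is solvable in polynomial time**: there
is a language `L` in `P` such that for every balanced chordal graph `G` on `{0, …, n - 1}` and every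
`k`, the encoding of `(G, k)` is in `L` if and only if `G` has a dominating set with at most `k`
vertices. -/
theorem result :
    ∃ L : Set (List Bool), InP L ∧ ∀ (n : ℕ) (G : SimpleGraph (Fin n)) (k : ℕ),
      BalancedChordal G → (bits (adjMatrix G, k) ∈ L ↔
        ∃ D : Finset (Fin n), D.card ≤ k ∧ ∀ v, v ∉ D → ∃ u ∈ D, G.Adj v u) := by
  refine ⟨lang (fun a : Inp => dcs a = true), inPP_of poly_dcs (fun _ => Iff.rfl), ?_⟩
  intro n G k hG
  rw [bits_mem_lang, dcs_correct G (balM_nbhd hG)]
  refine exists_congr fun D => and_congr_right fun _ => ?_
  constructor
  · intro h v hv
    obtain ⟨u, hu, h1⟩ := h v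
    rcases h1 with h1 | h1
    · subst h1
      exact absurd hu hv
    · exact ⟨u, hu, h1⟩
  · intro h v
    by_cases hv : v ∈ D
    · exact ⟨v, hv, Or.inl rfl⟩
    · obtain ⟨u, hu, h1⟩ := h v hv
      exact ⟨u, hu, Or.inr h1⟩

end Pool.Agent.Results.MP_1e64e3_lc.PolyTime
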